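import Mathlib

/-!
# MP_f93cde_pr: site disorder chaos fails on some 3-uniform hypergraphs of bounded growth

The hypergraph on `{0, ..., N-1}` is the disjoint union of complete 3-uniform hypergraphs on the
blocks `{4q, 4q+1, 4q+2, 4q+3}`. Balls have at most four points.
-/

set_option autoImplicit false

open MeasureTheory ProbabilityTheory Filter Topology

namespace Pool.Agent.Results.MP_f93cde_pr.NoSiteDisorderChaos

/-- The ball `B_r(v)` of the hypergraph with vertex set `Fin N` and set of hyperedges `E`: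
`v` itself, and all the vertices which are joined to `v` by a chain of at most `r` hyperedges. -/
def ball {N : ℕ} (E : Finset (Finset (Fin N))) (v : Fin N) : ℕ → Finset (Fin N)
  | 0 => {v}
  | r + 1 => ball E v r ∪
      Finset.univ.filter (fun w => ∃ e ∈ E, w ∈ e ∧ ∃ u ∈ ball E v r, u ∈ e)

/-- Polynomial growth of a sequence of hypergraphs. -/
def PolynomialGrowth (G : (N : ℕ) → Finset (Finset (Fin N))) : Prop :=
  ∃ A θ : ℝ, 0 < A ∧ 0 < θ ∧ ∀ (N : ℕ) (v : Fin N) (r : ℕ), 1 ≤ r →
    ((ball (G N) v r).card : ℝ) ≤ A * (r : ℝ) ^ θ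

/-- Exponential growth of a sequence of hypergraphs. -/
def ExponentialGrowth (G : (N : ℕ) → Finset (Finset (Fin N))) : Prop :=
  ∃ A γ : ℝ, 0 < A ∧ 1 < γ ∧ ∀ (N : ℕ) (v : Fin N) (r : ℕ),
    ((ball (G N) v r).card : ℝ) ≤ A * γ ^ r

/-- The value `±1` of a spin, as a real number. -/
def spin (s : ℤˣ) : ℝ := ((s : ℤ) : ℝ)

/-- The Hamiltonian `H(σ) = ∑_{e ∈ E} K_e ∏_{i ∈ e} σ_i` with couplings `K_e`. -/
noncomputable def hamiltonian {N : ℕ} (E : Finset (Finset (Fin N))) (K : E → ℝ)
    (σ : Fin N → ℤˣ) : ℝ :=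
  ∑ e : E, K e * ∏ i ∈ e.1, spin (σ i)

/-- The Gibbs measure at inverse temperature `β`. -/
noncomputable def gibbs {N : ℕ} (E : Finset (Finset (Fin N))) (β : ℝ) (K : E → ℝ)
    (σ : Fin N → ℤˣ) : ℝ :=
  Real.exp (β * hamiltonian E K σ) / ∑ τ : Fin N → ℤˣ, Real.exp (β * hamiltonian E K τ)

/-- The site overlap `R(σ, τ) = N⁻¹ ∑_i σ_i τ_i`. -/
noncomputable def overlap {N : ℕ} (σ τ : Fin N → ℤˣ) : ℝ :=
  (∑ i, spin (σ i) * spin (τ i)) / N

/-- `⟨R(σ, τ)²⟩`, where `σ`, `τ` are independent, with the Gibbs laws for the couplings `K`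
and `K'` respectively. -/
noncomputable def sqOverlap {N : ℕ} (E : Finset (Finset (Fin N))) (β : ℝ) (K K' : E → ℝ) : ℝ :=
  ∑ σ : Fin N → ℤˣ, ∑ τ : Fin N → ℤˣ, gibbs E β K σ * gibbs E β K' τ * overlap σ τ ^ 2

/-- `E ⟨R(σ, τ)²⟩_t` for the continuous perturbation `J(t) = e^{-t} J + √(1 - e^{-2t}) J'`, with
`(J_e, J'_e)`, `e ∈ E`, independent pairs of independent standard Gaussian variables, and
couplings `ρ(J_e)`. -/
noncomputable def continuousChaos {N : ℕ} (E : Finset (Finset (Fin N))) (ρ : ℝ → ℝ)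
    (β t : ℝ) : ℝ :=
  ∫ ω : E → ℝ × ℝ, sqOverlap E β (fun e => ρ (ω e).1)
      (fun e => ρ (Real.exp (-t) * (ω e).1 + Real.sqrt (1 - Real.exp (-2 * t)) * (ω e).2))
    ∂(Measure.pi fun _ => (gaussianReal 0 1).prod (gaussianReal 0 1))

/-- The Bernoulli law: `true` with probability `p`, `false` with probability `1 - p`. -/
noncomputable def bernoulliLaw (p : ℝ) : Measure Bool :=
  ENNReal.ofReal p • Measure.dirac true + ENNReal.ofReal (1 - p) • Measure.dirac false

/-- `E ⟨R(σ, τ)²⟩_t` for the discrete perturbation `J(t)_e = B_e J_e + (1 - B_e) J'_e`, with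
`(J_e, J'_e, B_e)`, `e ∈ E`, independent triples of independent variables, `J_e` and `J'_e` being
standard Gaussian and `B_e` Bernoulli with parameter `e^{-t}`, and couplings `ρ(J_e)`. -/
noncomputable def discreteChaos {N : ℕ} (E : Finset (Finset (Fin N))) (ρ : ℝ → ℝ)
    (β t : ℝ) : ℝ :=
  ∫ ω : E → (ℝ × ℝ) × Bool, sqOverlap E β (fun e => ρ (ω e).1.1)
      (fun e => ρ (if (ω e).2 then (ω e).1.1 else (ω e).1.2))
    ∂(Measure.pi fun _ =>
      ((gaussianReal 0 1).prod (gaussianReal 0 1)).prod (bernoulliLaw (Real.exp (-t))))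

/-! ### The hypergraph -/

/-- the block of `i` -/
def blk {N : ℕ} (i : Fin N) : Finset (Fin N) :=
  Finset.univ.filter (fun k => k.val / 4 = i.val / 4)

/-- the hyperedge of the three other vertices of the block of `i` -/
def edge {N : ℕ} (i : Fin N) : Finset (Fin N) := (blk i).erase i

/-- `i` lies in a complete block -/
def Act {N : ℕ} (i : Fin N) : Prop := i.val / 4 < N / 4

instance {N : ℕ} (i : Fin N) : Decidable (Act i) := by unfold Act; infer_instance

/-- the hypergraph: all the triples in complete blocks -/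
def G (N : ℕ) : Finset (Finset (Fin N)) := (Finset.univ.filter (fun i : Fin N => Act i)).image edge

lemma mem_blk {N : ℕ} (i k : Fin N) : k ∈ blk i ↔ k.val / 4 = i.val / 4 := by
  simp [blk]

lemma mem_edge {N : ℕ} (i k : Fin N) : k ∈ edge i ↔ k ≠ i ∧ k.val / 4 = i.val / 4 := by
  simp [edge, mem_blk]

lemma self_mem_blk {N : ℕ} (i : Fin N) : i ∈ blk i := by simp [mem_blk]

lemma card_blk {N : ℕ} {i : Fin N} (hi : Act i) : (blk i).card = 4 := by
  unfold Act at hi
  set q := i.val / 4 with hq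
  have h : 4 * q + 3 < N := by omega
  have hb : blk i = {⟨4 * q, by omega⟩, ⟨4 * q + 1, by omega⟩, ⟨4 * q + 2, by omega⟩,
      ⟨4 * q + 3, by omega⟩} := by
    ext k
    simp only [mem_blk, Finset.mem_insert, Finset.mem_singleton, Fin.ext_iff, ← hq]
    omega
  rw [hb]
  rw [Finset.card_insert_of_notMem, Finset.card_insert_of_notMem, Finset.card_insert_of_notMem,
    Finset.card_singleton]
  all_goals simp [Fin.ext_iff]

lemma card_edge {N : ℕ} {i : Fin N} (hi : Act i) : (edge i).card = 3 := by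
  rw [edge, Finset.card_erase_of_mem (self_mem_blk i), card_blk hi]

lemma blk_eq {N : ℕ} {i k : Fin N} (h : k.val / 4 = i.val / 4) : blk k = blk i := by
  ext l; simp [mem_blk, h]

lemma edge_inj {N : ℕ} {i j : Fin N} (hi : Act i) (h : edge i = edge j) : i = j := by
  have hne : (edge i).Nonempty := by
    rw [← Finset.card_pos, card_edge hi]; norm_num
  obtain ⟨k, hk⟩ := hne
  have h1 := (mem_edge i k).1 hk
  have h2 := (mem_edge j k).1 (h ▸ hk)
  by_contra hij
  have : i ∈ edge j := (mem_edge j i).2 ⟨hij, by omega⟩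
  rw [← h] at this
  exact ((mem_edge i i).1 this).1 rfl

lemma edge_mem_G {N : ℕ} {i : Fin N} (hi : Act i) : edge i ∈ G N := by
  unfold G
  exact Finset.mem_image_of_mem _ (by simp [hi])

lemma uniform3 (N : ℕ) (e : Finset (Fin N)) (he : e ∈ G N) : e.card = 3 := by
  unfold G at he
  obtain ⟨i, hi, rfl⟩ := Finset.mem_image.1 he
  exact card_edge (by simpa using hi)

lemma ball_subset {N : ℕ} (v : Fin N) (r : ℕ) : ball (G N) v r ⊆ blk v := by
  induction r with
  | zero => intro w hw; simp only [ball, Finset.mem_singleton] at hw; simp [mem_blk, hw]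
  | succ r ih =>
    intro w hw
    simp only [ball, Finset.mem_union, Finset.mem_filter, Finset.mem_univ, true_and] at hw
    rcases hw with hw | ⟨e, he, hwe, u, hu, hue⟩
    · exact ih hw
    · unfold G at he
      obtain ⟨i, hi, rfl⟩ := Finset.mem_image.1 he
      have h1 := (mem_edge i w).1 hwe
      have h2 := (mem_edge i u).1 hue
      have h3 := (mem_blk v u).1 (ih hu)
      rw [mem_blk]
      omega

lemma card_blk_le {N : ℕ} (i : Fin N) : (blk i).card ≤ 4 := by
  have : (blk i).card ≤ (Finset.Ico (4 * (i.val / 4)) (4 * (i.val / 4) + 4)).card := by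
    refine Finset.card_le_card_of_injOn (fun k => k.val) ?_ ?_
    · intro k hk
      have hk' := (mem_blk i k).1 hk
      simp only [Finset.coe_Ico, Set.mem_Ico]
      omega
    · intro a _ b _ hab
      exact Fin.ext hab
  simpa using this

lemma card_ball_le {N : ℕ} (v : Fin N) (r : ℕ) : (ball (G N) v r).card ≤ 4 :=
  (Finset.card_le_card (ball_subset v r)).trans (card_blk_le v)

/-! ### The Gibbs measure -/

/-- the change of variables -/
def Phi {N : ℕ} (σ : Fin N → ℤˣ) : Fin N → ℤˣ :=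
  fun i => if Act i then ∏ k ∈ edge i, σ k else σ i

lemma act_of_mem {N : ℕ} {i k : Fin N} (hi : Act i) (hk : k ∈ edge i) : Act k := by
  have := (mem_edge i k).1 hk
  unfold Act at *
  omega

lemma prod_edge {N : ℕ} (σ : Fin N → ℤˣ) (i : Fin N) :
    ∏ k ∈ edge i, σ k = (∏ k ∈ blk i, σ k) * σ i := by
  unfold edge
  rw [← Finset.mul_prod_erase (blk i) σ (self_mem_blk i)]
  rw [mul_comm (σ i), mul_assoc, Int.units_mul_self, mul_one]

lemma Phi_act {N : ℕ} (σ : Fin N → ℤˣ) {i : Fin N} (hi : Act i) :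
    Phi σ i = ∏ k ∈ edge i, σ k := by simp [Phi, hi]

lemma Phi_invol {N : ℕ} : Function.Involutive (Phi (N := N)) := by
  intro σ
  funext i
  by_cases hi : Act i
  · rw [Phi_act _ hi]
    have h1 : ∀ k ∈ edge i, Phi σ k = (∏ l ∈ blk i, σ l) * σ k := by
      intro k hk
      rw [Phi_act _ (act_of_mem hi hk), prod_edge, blk_eq ((mem_edge i k).1 hk).2]
    rw [Finset.prod_congr rfl h1, Finset.prod_mul_distrib, Finset.prod_const, card_edge hi,
      prod_edge]
    set P := ∏ l ∈ blk i, σ l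
    have hP : P * P = 1 := Int.units_mul_self P
    calc P ^ 3 * (P * σ i) = (P * P) * (P * P) * σ i := by
          rw [pow_succ, pow_two]; simp only [mul_assoc]
      _ = σ i := by rw [hP]; simp
  · simp [Phi, hi]

/-- the fields of the new spins -/
noncomputable def fld {N : ℕ} (K : ↥(G N) → ℝ) (i : Fin N) : ℝ :=
  if h : Act i then K ⟨edge i, edge_mem_G h⟩ else 0

lemma spin_prod {N : ℕ} (s : Finset (Fin N)) (σ : Fin N → ℤˣ) :
    spin (∏ i ∈ s, σ i) = ∏ i ∈ s, spin (σ i) := by
  unfold spin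
  rw [Units.coe_prod, Int.cast_prod]

lemma hamiltonian_eq {N : ℕ} (K : ↥(G N) → ℝ) (σ : Fin N → ℤˣ) :
    hamiltonian (G N) K σ = ∑ i, fld K i * spin (Phi σ i) := by
  have h1 : ∑ i, fld K i * spin (Phi σ i) =
      ∑ i ∈ Finset.univ.filter (fun i : Fin N => Act i), fld K i * spin (Phi σ i) := by
    rw [Finset.sum_filter]
    refine Finset.sum_congr rfl fun i _ => ?_
    by_cases hi : Act i
    · simp [hi]
    · simp [hi, fld]
  rw [h1, hamiltonian]
  symm
  refine Finset.sum_bij' (fun i hi => (⟨edge i, edge_mem_G (by simpa using hi)⟩ : ↥(G N)))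
    (fun e _ => (Finset.mem_image.1 (show e.1 ∈ (Finset.univ.filter
      (fun i : Fin N => Act i)).image edge from e.2)).choose) ?_ ?_ ?_ ?_ ?_
  · intro i hi; simp
  · intro e he
    exact (Finset.mem_image.1 (show e.1 ∈ (Finset.univ.filter
      (fun i : Fin N => Act i)).image edge from e.2)).choose_spec.1
  · intro i hi
    have hs := (Finset.mem_image.1 (show (⟨edge i, edge_mem_G (by simpa using hi)⟩ :
      ↥(G N)).1 ∈ (Finset.univ.filter
      (fun i : Fin N => Act i)).image edge from edge_mem_G (by simpa using hi))).choose_spec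
    exact edge_inj (by simpa using hs.1) hs.2
  · intro e he
    have hs := (Finset.mem_image.1 (show e.1 ∈ (Finset.univ.filter
      (fun i : Fin N => Act i)).image edge from e.2)).choose_spec
    exact Subtype.ext hs.2
  · intro i hi
    have hi' : Act i := by simpa using hi
    simp only [fld, hi', dif_pos]
    rw [Phi_act _ hi', spin_prod]

lemma spin_one : spin 1 = 1 := by simp [spin]

lemma spin_neg_one : spin (-1) = -1 := by simp [spin]

lemma sum_units (f : ℤˣ → ℝ) : ∑ s, f s = f 1 + f (-1) := by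
  rw [show (Finset.univ : Finset ℤˣ) = {1, -1} from rfl]
  rw [Finset.sum_pair (by decide)]

lemma sum_prod_spins {N : ℕ} (X : Fin N → ℝ) (S : Finset (Fin N)) :
    ∑ τ : Fin N → ℤˣ, Real.exp (∑ i, X i * spin (τ i)) * ∏ k ∈ S, spin (τ k)
      = (∏ k ∈ S, Real.tanh (X k)) * ∏ i, (2 * Real.cosh (X i)) := by
  have h1 : ∀ τ : Fin N → ℤˣ, Real.exp (∑ i, X i * spin (τ i)) * ∏ k ∈ S, spin (τ k)
      = ∏ i, (Real.exp (X i * spin (τ i)) * if i ∈ S then spin (τ i) else 1) := by
    intro τ
    rw [Real.exp_sum, Finset.prod_mul_distrib]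
    congr 1
    rw [Finset.prod_ite_mem, Finset.univ_inter]
  simp only [h1]
  have h2 := Finset.prod_univ_sum (fun _ : Fin N => (Finset.univ : Finset ℤˣ))
    (fun i s => Real.exp (X i * spin s) * if i ∈ S then spin s else 1)
  rw [Fintype.piFinset_univ] at h2
  rw [← h2]
  have h3 : ∏ k ∈ S, Real.tanh (X k) = ∏ i, (if i ∈ S then Real.tanh (X i) else 1) := by
    rw [Finset.prod_ite_mem, Finset.univ_inter]
  rw [h3, ← Finset.prod_mul_distrib]
  refine Finset.prod_congr rfl fun i _ => ?_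
  rw [sum_units, spin_one, spin_neg_one]
  by_cases hi : i ∈ S
  · simp only [hi, if_true]
    rw [Real.tanh_eq_sinh_div_cosh]
    have : Real.cosh (X i) ≠ 0 := (Real.cosh_pos _).ne'
    field_simp
    rw [Real.sinh_eq]
    ring_nf
  · simp only [hi, if_false]
    rw [Real.cosh_eq]
    ring_nf

/-- Gibbs average of a product of the new spins -/
lemma gibbs_prod {N : ℕ} (β : ℝ) (K : ↥(G N) → ℝ)
    (S : Finset (Fin N)) :
    ∑ σ : Fin N → ℤˣ, gibbs (G N) β K σ * ∏ k ∈ S, spin (Phi σ k)
      = ∏ k ∈ S, Real.tanh (β * fld K k) := by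
  have hH : ∀ σ, β * hamiltonian (G N) K σ = ∑ i, (β * fld K i) * spin (Phi σ i) := by
    intro σ
    rw [hamiltonian_eq, Finset.mul_sum]
    exact Finset.sum_congr rfl fun i _ => by ring
  have hsum : ∀ F : (Fin N → ℤˣ) → ℝ, ∑ σ, F (Phi σ) = ∑ τ, F τ := by
    intro F
    exact Equiv.sum_comp (Function.Involutive.toPerm Phi Phi_invol) F
  have hZ : ∑ τ : Fin N → ℤˣ, Real.exp (β * hamiltonian (G N) K τ)
      = ∏ i, (2 * Real.cosh (β * fld K i)) := by
    simp only [hH]
    rw [hsum (fun τ => Real.exp (∑ i, (β * fld K i) * spin (τ i)))]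
    have := sum_prod_spins (fun i => β * fld K i) (∅ : Finset (Fin N))
    simpa using this
  have hZpos : 0 < ∏ i, (2 * Real.cosh (β * fld K i)) :=
    Finset.prod_pos fun i _ => by have := Real.cosh_pos (β * fld K i); positivity
  unfold gibbs
  rw [hZ]
  have h2 : ∀ σ : Fin N → ℤˣ, Real.exp (β * hamiltonian (G N) K σ) /
      (∏ i, (2 * Real.cosh (β * fld K i))) * ∏ k ∈ S, spin (Phi σ k)
      = (Real.exp (∑ i, (β * fld K i) * spin (Phi σ i)) * ∏ k ∈ S, spin (Phi σ k)) /
        (∏ i, (2 * Real.cosh (β * fld K i))) := by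
    intro σ
    rw [hH]; ring
  simp only [h2]
  rw [← Finset.sum_div, hsum (fun τ => Real.exp (∑ i, (β * fld K i) * spin (τ i)) *
    ∏ k ∈ S, spin (τ k)), sum_prod_spins, mul_div_assoc, div_self hZpos.ne', mul_one]

lemma gibbs_sum {N : ℕ} (E : Finset (Finset (Fin N))) (β : ℝ) (K : E → ℝ) :
    ∑ σ : Fin N → ℤˣ, gibbs E β K σ = 1 := by
  unfold gibbs
  rw [← Finset.sum_div]
  refine div_self (ne_of_gt ?_)
  exact Finset.sum_pos (fun _ _ => Real.exp_pos _) Finset.univ_nonempty

lemma gibbs_nonneg {N : ℕ} (E : Finset (Finset (Fin N))) (β : ℝ) (K : E → ℝ)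
    (σ : Fin N → ℤˣ) : 0 ≤ gibbs E β K σ := by
  unfold gibbs
  exact div_nonneg (Real.exp_pos _).le (Finset.sum_nonneg fun _ _ => (Real.exp_pos _).le)

/-- magnetisation in terms of the hyperbolic tangents -/
noncomputable def mag {N : ℕ} (β : ℝ) (K : ↥(G N) → ℝ)
    (i : Fin N) : ℝ := if Act i then ∏ k ∈ edge i, Real.tanh (β * fld K k) else 0

lemma gibbs_spin {N : ℕ} (β : ℝ) (K : ↥(G N) → ℝ) (i : Fin N) :
    ∑ σ : Fin N → ℤˣ, gibbs (G N) β K σ * spin (σ i) = mag β K i := by
  unfold mag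
  by_cases hi : Act i
  · simp only [hi, if_true]
    rw [← gibbs_prod β K (edge i)]
    refine Finset.sum_congr rfl fun σ _ => ?_
    rw [← spin_prod, ← Phi_act (Phi σ) hi, Phi_invol σ]
  · simp only [hi, if_false]
    have h := gibbs_prod β K {i}
    simp only [Finset.prod_singleton, fld, hi, dif_neg, not_false_eq_true, mul_zero,
      Real.tanh_zero] at h
    rw [← h]
    refine Finset.sum_congr rfl fun σ _ => ?_
    simp [Phi, hi]

/-- `⟨R⟩` -/
lemma overlap_mean {N : ℕ} (β : ℝ) (K K' : ↥(G N) → ℝ) :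
    ∑ σ : Fin N → ℤˣ, ∑ τ : Fin N → ℤˣ, gibbs (G N) β K σ * gibbs (G N) β K' τ * overlap σ τ
      = (∑ i, mag β K i * mag β K' i) / N := by
  have h1 : ∀ i, mag β K i * mag β K' i = ∑ σ : Fin N → ℤˣ, ∑ τ : Fin N → ℤˣ,
      gibbs (G N) β K σ * gibbs (G N) β K' τ * (spin (σ i) * spin (τ i)) := by
    intro i
    rw [← gibbs_spin, ← gibbs_spin, Finset.sum_mul_sum]
    refine Finset.sum_congr rfl fun σ _ => Finset.sum_congr rfl fun τ _ => ?_
    ring
  calc ∑ σ : Fin N → ℤˣ, ∑ τ : Fin N → ℤˣ,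
        gibbs (G N) β K σ * gibbs (G N) β K' τ * overlap σ τ
      = ∑ σ : Fin N → ℤˣ, ∑ τ : Fin N → ℤˣ, (∑ i,
          gibbs (G N) β K σ * gibbs (G N) β K' τ * (spin (σ i) * spin (τ i))) / N := by
        refine Finset.sum_congr rfl fun σ _ => Finset.sum_congr rfl fun τ _ => ?_
        rw [← Finset.mul_sum, overlap, mul_div_assoc]
    _ = (∑ σ : Fin N → ℤˣ, ∑ τ : Fin N → ℤˣ, ∑ i,
          gibbs (G N) β K σ * gibbs (G N) β K' τ * (spin (σ i) * spin (τ i))) / N := by
        simp only [Finset.sum_div]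
    _ = (∑ σ : Fin N → ℤˣ, ∑ i, ∑ τ : Fin N → ℤˣ,
          gibbs (G N) β K σ * gibbs (G N) β K' τ * (spin (σ i) * spin (τ i))) / N := by
        congr 1
        refine Finset.sum_congr rfl fun σ _ => ?_
        rw [Finset.sum_comm]
    _ = (∑ i, ∑ σ : Fin N → ℤˣ, ∑ τ : Fin N → ℤˣ,
          gibbs (G N) β K σ * gibbs (G N) β K' τ * (spin (σ i) * spin (τ i))) / N := by
        rw [Finset.sum_comm]
    _ = (∑ i, mag β K i * mag β K' i) / N := by simp only [h1]

lemma var_expand {ι κ : Type*} [Fintype ι] [Fintype κ] (w X : ι → κ → ℝ) (m : ℝ) :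
    ∑ i, ∑ j, w i j * (X i j - m) ^ 2 = (∑ i, ∑ j, w i j * X i j ^ 2)
      - 2 * m * (∑ i, ∑ j, w i j * X i j) + m ^ 2 * ∑ i, ∑ j, w i j := by
  simp only [Finset.mul_sum, ← Finset.sum_sub_distrib, ← Finset.sum_add_distrib]
  refine Finset.sum_congr rfl fun i _ => Finset.sum_congr rfl fun j _ => by ring

lemma gibbs_sum_two {N : ℕ} (E : Finset (Finset (Fin N))) (β : ℝ) (K K' : E → ℝ) :
    ∑ σ : Fin N → ℤˣ, ∑ τ : Fin N → ℤˣ, gibbs E β K σ * gibbs E β K' τ = 1 := by
  rw [← Finset.sum_mul_sum, gibbs_sum, gibbs_sum, one_mul]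

lemma sqOverlap_ge {N : ℕ} (β : ℝ) (K K' : ↥(G N) → ℝ) :
    ((∑ i, mag β K i * mag β K' i) / N) ^ 2 ≤ sqOverlap (G N) β K K' := by
  have hm := overlap_mean β K K'
  set m := (∑ i, mag β K i * mag β K' i) / N
  have h0 : 0 ≤ ∑ σ : Fin N → ℤˣ, ∑ τ : Fin N → ℤˣ,
      gibbs (G N) β K σ * gibbs (G N) β K' τ * (overlap σ τ - m) ^ 2 :=
    Finset.sum_nonneg fun σ _ => Finset.sum_nonneg fun τ _ =>
      mul_nonneg (mul_nonneg (gibbs_nonneg _ _ _ _) (gibbs_nonneg _ _ _ _)) (sq_nonneg _)
  rw [var_expand (fun σ τ => gibbs (G N) β K σ * gibbs (G N) β K' τ)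
    (fun σ τ => overlap σ τ) m, hm, gibbs_sum_two] at h0
  have h2 : sqOverlap (G N) β K K' = ∑ σ : Fin N → ℤˣ, ∑ τ : Fin N → ℤˣ,
      gibbs (G N) β K σ * gibbs (G N) β K' τ * overlap σ τ ^ 2 := rfl
  rw [← h2] at h0
  nlinarith [h0]

lemma abs_spin (s : ℤˣ) : |spin s| = 1 := by
  rcases Int.units_eq_one_or s with h | h <;> rw [h]
  · rw [spin_one, abs_one]
  · rw [spin_neg_one, abs_neg, abs_one]

lemma overlap_sq_le {N : ℕ} (σ τ : Fin N → ℤˣ) : overlap σ τ ^ 2 ≤ 1 := by
  have h : |overlap σ τ| ≤ 1 := by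
    unfold overlap
    rw [abs_div, Nat.abs_cast]
    refine div_le_one_of_le₀ ?_ (Nat.cast_nonneg _)
    calc |∑ i, spin (σ i) * spin (τ i)| ≤ ∑ i, |spin (σ i) * spin (τ i)| :=
          Finset.abs_sum_le_sum_abs _ _
      _ = N := by simp [abs_mul, abs_spin]
  have := abs_le.1 h
  nlinarith [this.1, this.2]

lemma sqOverlap_nonneg {N : ℕ} (E : Finset (Finset (Fin N))) (β : ℝ) (K K' : E → ℝ) :
    0 ≤ sqOverlap E β K K' :=
  Finset.sum_nonneg fun _ _ => Finset.sum_nonneg fun _ _ =>
      mul_nonneg (mul_nonneg (gibbs_nonneg _ _ _ _) (gibbs_nonneg _ _ _ _)) (sq_nonneg _)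

lemma sqOverlap_le {N : ℕ} (E : Finset (Finset (Fin N))) (β : ℝ) (K K' : E → ℝ) :
    sqOverlap E β K K' ≤ 1 := by
  rw [← gibbs_sum_two E β K K', sqOverlap]
  refine Finset.sum_le_sum fun σ _ => Finset.sum_le_sum fun τ _ => ?_
  have h := mul_nonneg (gibbs_nonneg E β K σ) (gibbs_nonneg E β K' τ)
  have h2 := overlap_sq_le σ τ
  nlinarith

lemma measurable_gibbs {N : ℕ} (E : Finset (Finset (Fin N))) (β : ℝ) (σ : Fin N → ℤˣ) :
    Measurable (fun K : E → ℝ => gibbs E β K σ) := by
  unfold gibbs hamiltonian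
  fun_prop

lemma measurable_sqOverlap {N : ℕ} (E : Finset (Finset (Fin N))) (β : ℝ) {Ω : Type*}
    [MeasurableSpace Ω] {K K' : Ω → E → ℝ} (hK : Measurable K) (hK' : Measurable K') :
    Measurable (fun ω => sqOverlap E β (K ω) (K' ω)) := by
  unfold sqOverlap
  refine Finset.measurable_sum _ fun σ _ => Finset.measurable_sum _ fun τ _ => ?_
  exact (((measurable_gibbs E β σ).comp hK).mul ((measurable_gibbs E β τ).comp hK')).mul_const _

/-! ### Averages over the disorder -/

section Average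

variable {Ω₁ : Type*} [MeasurableSpace Ω₁] (ν : Measure Ω₁) [IsProbabilityMeasure ν]
  (a b : Ω₁ → ℝ)

/-- the index set of the three edges -/
def eix {N : ℕ} {i : Fin N} (hi : Act i) (k : {k // k ∈ edge i}) : ↥(G N) :=
  ⟨edge k.1, edge_mem_G (act_of_mem hi k.2)⟩

lemma eix_inj {N : ℕ} {i : Fin N} (hi : Act i) : Function.Injective (eix hi) := by
  intro k l h
  have h1 : edge k.1 = edge l.1 := congrArg Subtype.val h
  exact Subtype.ext (edge_inj (act_of_mem hi k.2) h1)

lemma measurable_tanh : Measurable Real.tanh := by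
  have : Real.tanh = fun x => Real.sinh x / Real.cosh x := by
    funext x; exact Real.tanh_eq_sinh_div_cosh x
  rw [this]
  exact Real.measurable_sinh.div Real.measurable_cosh

lemma abs_tanh_le (x : ℝ) : |Real.tanh x| ≤ 1 := by
  rw [abs_le]
  exact ⟨(Real.neg_one_lt_tanh x).le, (Real.tanh_lt_one x).le⟩

lemma mag_mul {N : ℕ} {i : Fin N} (hi : Act i) (β : ℝ) (ω : ↥(G N) → Ω₁) :
    mag β (fun e => a (ω e)) i * mag β (fun e => b (ω e)) i
      = ∏ e, (if e ∈ (edge i).attach.image (eix hi) then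
          Real.tanh (β * a (ω e)) * Real.tanh (β * b (ω e)) else 1) := by
  unfold mag
  simp only [hi, if_true]
  rw [← Finset.prod_mul_distrib, ← Finset.prod_attach, Finset.prod_ite_mem, Finset.univ_inter,
    Finset.prod_image (fun x _ y _ h => eix_inj hi h)]
  refine Finset.prod_congr rfl fun k _ => ?_
  have hk : Act k.1 := act_of_mem hi k.2
  simp only [fld, hk, dif_pos]
  rfl

lemma integral_mag {N : ℕ} {i : Fin N} (hi : Act i) (β : ℝ) :
    ∫ ω : ↥(G N) → Ω₁, mag β (fun e => a (ω e)) i * mag β (fun e => b (ω e)) i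
        ∂(Measure.pi fun _ => ν)
      = (∫ x, Real.tanh (β * a x) * Real.tanh (β * b x) ∂ν) ^ 3 := by
  simp only [mag_mul a b hi β]
  rw [integral_fintype_prod_eq_prod (fun (e : ↥(G N)) (x : Ω₁) =>
    if e ∈ (edge i).attach.image (eix hi) then
          Real.tanh (β * a x) * Real.tanh (β * b x) else 1)]
  have h : ∀ e : ↥(G N), ∫ x, (if e ∈ (edge i).attach.image (eix hi) then
          Real.tanh (β * a x) * Real.tanh (β * b x) else 1) ∂ν
      = if e ∈ (edge i).attach.image (eix hi) then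
          ∫ x, Real.tanh (β * a x) * Real.tanh (β * b x) ∂ν else 1 := by
    intro e
    by_cases he : e ∈ (edge i).attach.image (eix hi)
    · simp only [he, if_true]
    · simp only [he, if_false, integral_const, probReal_univ, one_smul]
  simp only [h]
  rw [Finset.prod_ite_mem, Finset.univ_inter, Finset.prod_const,
    Finset.card_image_of_injective _ (eix_inj hi), Finset.card_attach, card_edge hi]

variable {a b}

lemma measurable_mag {N : ℕ} (ha : Measurable a) (β : ℝ) (i : Fin N) :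
    Measurable (fun ω : ↥(G N) → Ω₁ => mag β (fun e => a (ω e)) i) := by
  unfold mag
  by_cases hi : Act i
  · simp only [hi, if_true]
    refine Finset.measurable_prod _ fun k _ => ?_
    by_cases hk : Act k
    · simp only [fld, hk, dif_pos]
      exact measurable_tanh.comp (((ha.comp (measurable_pi_apply _))).const_mul _)
    · simp only [fld, hk, dif_neg, not_false_eq_true]
      exact measurable_const
  · simp only [hi, if_false]
    exact measurable_const

lemma abs_mag_le {N : ℕ} (β : ℝ) (K : ↥(G N) → ℝ) (i : Fin N) : |mag β K i| ≤ 1 := by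
  unfold mag
  split_ifs
  · rw [Finset.abs_prod]
    exact Finset.prod_le_one (fun _ _ => abs_nonneg _) (fun _ _ => abs_tanh_le _)
  · simp

lemma integrable_mag {N : ℕ} (ha : Measurable a) (hb : Measurable b) (β : ℝ) (i : Fin N) :
    Integrable (fun ω : ↥(G N) → Ω₁ =>
      mag β (fun e => a (ω e)) i * mag β (fun e => b (ω e)) i) (Measure.pi fun _ => ν) := by
  refine Integrable.of_bound ((measurable_mag ha β i).mul
    (measurable_mag hb β i)).aestronglyMeasurable 1 (Eventually.of_forall fun ω => ?_)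
  rw [Real.norm_eq_abs, abs_mul]
  exact mul_le_one₀ (abs_mag_le _ _ _) (abs_nonneg _) (abs_mag_le _ _ _)

lemma card_act (N : ℕ) : N ≤ (Finset.univ.filter (fun i : Fin N => Act i)).card + 3 := by
  have h : 4 * (N / 4) ≤ (Finset.univ.filter (fun i : Fin N => Act i)).card := by
    calc 4 * (N / 4) = (Finset.univ : Finset (Fin (4 * (N / 4)))).card := by simp
      _ ≤ _ := by
        refine Finset.card_le_card_of_injOn (fun k => (⟨k.val, by omega⟩ : Fin N)) ?_ ?_
        · intro k _
          have := k.2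
          simp only [Finset.coe_filter, Finset.mem_univ, true_and, Set.mem_ofPred_eq, Act]
          omega
        · intro x _ y _ hxy
          have := congrArg Fin.val hxy
          exact Fin.ext this
  omega

theorem average_ge (ha : Measurable a) (hb : Measurable b) (β : ℝ)
    (hpos : 0 < ∫ x, Real.tanh (β * a x) * Real.tanh (β * b x) ∂ν) :
    ∃ c : ℝ, 0 < c ∧ ∀ᶠ N : ℕ in atTop,
      c ≤ ∫ ω : ↥(G N) → Ω₁, sqOverlap (G N) β (fun e => a (ω e)) (fun e => b (ω e))
        ∂(Measure.pi fun _ => ν) := by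
  set κ := ∫ x, Real.tanh (β * a x) * Real.tanh (β * b x) ∂ν with hκ
  refine ⟨(κ ^ 3 / 2) ^ 2, by positivity, ?_⟩
  filter_upwards [eventually_ge_atTop 6] with N hN
  set μ : Measure (↥(G N) → Ω₁) := Measure.pi fun _ => ν with hμ
  set X : (↥(G N) → Ω₁) → ℝ := fun ω =>
    (∑ i, mag β (fun e => a (ω e)) i * mag β (fun e => b (ω e)) i) / N with hX
  have hXint : Integrable X μ := by
    refine Integrable.div_const ?_ _
    exact integrable_finsetSum _ fun i _ => integrable_mag ν ha hb β i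
  have hmean : κ ^ 3 / 2 ≤ ∫ ω, X ω ∂μ := by
    have h1 : ∫ ω, X ω ∂μ
        = ((Finset.univ.filter (fun i : Fin N => Act i)).card : ℝ) * κ ^ 3 / N := by
      rw [hX]
      rw [integral_div, integral_finsetSum _ fun i _ => integrable_mag ν ha hb β i]
      congr 1
      have h2 : ∀ i : Fin N, ∫ ω : ↥(G N) → Ω₁,
          mag β (fun e => a (ω e)) i * mag β (fun e => b (ω e)) i ∂μ
          = if Act i then κ ^ 3 else 0 := by
        intro i
        by_cases hi : Act i
        · simp only [hi, if_true]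
          exact integral_mag ν a b hi β
        · simp [mag, hi]
      rw [Finset.sum_congr rfl (fun i _ => h2 i)]
      rw [← Finset.sum_filter, Finset.sum_const, nsmul_eq_mul]
    rw [h1]
    have h3 : ((N : ℕ) : ℝ) ≤ ((Finset.univ.filter (fun i : Fin N => Act i)).card : ℝ) + 3 := by
      exact_mod_cast card_act N
    have hN' : (6 : ℝ) ≤ N := by exact_mod_cast hN
    rw [div_le_div_iff₀ (by norm_num) (by linarith)]
    have hk3 : 0 < κ ^ 3 := by positivity
    nlinarith
  have hSint : Integrable (fun ω : ↥(G N) → Ω₁ =>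
      sqOverlap (G N) β (fun e => a (ω e)) (fun e => b (ω e))) μ := by
    refine Integrable.of_bound (measurable_sqOverlap (G N) β ?_ ?_).aestronglyMeasurable 1
      (Eventually.of_forall fun ω => ?_)
    · exact measurable_pi_lambda _ fun e => ha.comp (measurable_pi_apply e)
    · exact measurable_pi_lambda _ fun e => hb.comp (measurable_pi_apply e)
    · rw [Real.norm_eq_abs, abs_of_nonneg (sqOverlap_nonneg _ _ _ _)]
      exact sqOverlap_le _ _ _ _
  set c := κ ^ 3 / 2 with hc
  have hcpos : 0 < c := by positivity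
  calc c ^ 2 ≤ 2 * c * (∫ ω, X ω ∂μ) - c ^ 2 := by nlinarith
    _ = ∫ ω, (2 * c * X ω - c ^ 2) ∂μ := by
        rw [integral_sub (hXint.const_mul _) (integrable_const _), integral_const_mul,
          integral_const, probReal_univ, one_smul]
    _ ≤ _ := by
        refine integral_mono ((hXint.const_mul _).sub (integrable_const _)) hSint fun ω => ?_
        have h5 := sqOverlap_ge β (fun e => a (ω e)) (fun e => b (ω e))
        have h6 : X ω ^ 2 ≤ sqOverlap (G N) β (fun e => a (ω e)) (fun e => b (ω e)) := h5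
        have h7 := sq_nonneg (X ω - c)
        simp only
        nlinarith

end Average

/-! ### Positivity -/

lemma tanh_add_tanh (A B : ℝ) : Real.tanh (A + B) + Real.tanh (A - B)
    = Real.sinh (2 * A) / (Real.cosh (A + B) * Real.cosh (A - B)) := by
  have h1 := (Real.cosh_pos (A + B)).ne'
  have h2 := (Real.cosh_pos (A - B)).ne'
  rw [Real.tanh_eq_sinh_div_cosh, Real.tanh_eq_sinh_div_cosh, div_add_div _ _ h1 h2]
  congr 1
  have : 2 * A = (A + B) + (A - B) := by ring
  rw [this, Real.sinh_add (A + B) (A - B)]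

lemma pos_aux {β c x : ℝ} (hβ : 0 < β) (hc : 0 < c) (hx : x ≠ 0) (B : ℝ) :
    0 < Real.tanh (β * x) * (Real.tanh (β * c * x + B) + Real.tanh (β * c * x - B)) := by
  rw [tanh_add_tanh]
  have h3 : 0 < Real.cosh (β * c * x + B) * Real.cosh (β * c * x - B) :=
    mul_pos (Real.cosh_pos _) (Real.cosh_pos _)
  rw [Real.tanh_eq_sinh_div_cosh, div_mul_div_comm]
  refine div_pos ?_ (mul_pos (Real.cosh_pos _) h3)
  rcases lt_or_gt_of_ne hx with h | h
  · refine mul_pos_of_neg_of_neg ?_ ?_
    · rw [Real.sinh_neg_iff]; exact mul_neg_of_pos_of_neg hβ h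
    · rw [Real.sinh_neg_iff]
      have : β * c * x < 0 := mul_neg_of_pos_of_neg (mul_pos hβ hc) h
      linarith
  · refine mul_pos ?_ ?_
    · rw [Real.sinh_pos_iff]; exact mul_pos hβ h
    · rw [Real.sinh_pos_iff]
      have : 0 < β * c * x := mul_pos (mul_pos hβ hc) h
      linarith

lemma bounded_integrable {Ω₁ : Type*} [MeasurableSpace Ω₁] (ν : Measure Ω₁)
    [IsProbabilityMeasure ν] {a b : Ω₁ → ℝ} (ha : Measurable a) (hb : Measurable b) (β : ℝ) :
    Integrable (fun x => Real.tanh (β * a x) * Real.tanh (β * b x)) ν := by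
  refine Integrable.of_bound ((measurable_tanh.comp (ha.const_mul β)).mul
    (measurable_tanh.comp (hb.const_mul β))).aestronglyMeasurable 1
    (Eventually.of_forall fun ω => ?_)
  rw [Real.norm_eq_abs, abs_mul]
  exact mul_le_one₀ (abs_tanh_le _) (abs_nonneg _) (abs_tanh_le _)

lemma null_fst : ((gaussianReal 0 1).prod (gaussianReal 0 1))
    {ω : ℝ × ℝ | ω.1 = 0} = 0 := by
  have : {ω : ℝ × ℝ | ω.1 = 0} = ({0} : Set ℝ) ×ˢ (Set.univ : Set ℝ) := by
    ext ω; simp
  rw [this, Measure.prod_prod]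
  have : NullSingletonClass (gaussianReal 0 1) := nullSingletonClass_gaussianReal (by norm_num)
  rw [measure_singleton, zero_mul]

theorem kappa_continuous {β t : ℝ} (hβ : 0 < β) :
    0 < ∫ x : ℝ × ℝ, Real.tanh (β * x.1) * Real.tanh (β *
      (Real.exp (-t) * x.1 + Real.sqrt (1 - Real.exp (-2 * t)) * x.2))
      ∂((gaussianReal 0 1).prod (gaussianReal 0 1)) := by
  set s := Real.sqrt (1 - Real.exp (-2 * t)) with hs
  set c := Real.exp (-t) with hc
  have hcpos : 0 < c := Real.exp_pos _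
  set ν := (gaussianReal 0 1).prod (gaussianReal 0 1) with hν
  set F : ℝ × ℝ → ℝ := fun x => Real.tanh (β * x.1) * Real.tanh (β * (c * x.1 + s * x.2)) with hF
  have hFi : Integrable F ν := bounded_integrable ν measurable_fst
    (by fun_prop : Measurable fun x : ℝ × ℝ => c * x.1 + s * x.2) β
  have hmp : MeasurePreserving (fun x : ℝ × ℝ => (x.1, -x.2)) ν ν := by
    have h1 : MeasurePreserving (fun x : ℝ => -x) (gaussianReal 0 1) (gaussianReal 0 1) :=
      ⟨measurable_neg, by rw [gaussianReal_map_neg, neg_zero]⟩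
    exact (MeasurePreserving.id (gaussianReal 0 1)).prod h1
  have hemb : MeasurableEmbedding (fun x : ℝ × ℝ => (x.1, -x.2)) :=
    ((MeasurableEquiv.refl ℝ).prodCongr (MeasurableEquiv.neg ℝ)).measurableEmbedding
  have hsym : ∫ x, F (x.1, -x.2) ∂ν = ∫ x, F x ∂ν := hmp.integral_comp hemb F
  have hGi : Integrable (fun x : ℝ × ℝ => F (x.1, -x.2)) ν := hmp.integrable_comp_of_integrable hFi
  have hsum : ∫ x, (F x + F (x.1, -x.2)) ∂ν = 2 * ∫ x, F x ∂ν := by
    rw [integral_add hFi hGi, hsym]; ring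
  have hpt : ∀ x : ℝ × ℝ, F x + F (x.1, -x.2) = Real.tanh (β * x.1) *
      (Real.tanh (β * c * x.1 + β * s * x.2) + Real.tanh (β * c * x.1 - β * s * x.2)) := by
    intro x
    simp only [hF]
    rw [show β * (c * x.1 + s * x.2) = β * c * x.1 + β * s * x.2 by ring,
      show β * (c * x.1 + s * -x.2) = β * c * x.1 - β * s * x.2 by ring]
    ring
  have hpos : 0 < ∫ x, (F x + F (x.1, -x.2)) ∂ν := by
    rw [integral_pos_iff_support_of_nonneg_ae]
    · have hsub : {x : ℝ × ℝ | x.1 = 0}ᶜ ⊆ Function.support (fun x => F x + F (x.1, -x.2)) := by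
        intro x hx
        rw [Function.mem_support, hpt]
        exact (pos_aux hβ hcpos hx _).ne'
      refine lt_of_lt_of_le ?_ (measure_mono hsub)
      have h1 := prob_compl_eq_one_iff₀ (μ := ν) (s := {x : ℝ × ℝ | x.1 = 0})
        (measurableSet_eq_fun measurable_fst measurable_const).nullMeasurableSet
      rw [h1.2 null_fst]
      exact one_pos
    · refine Eventually.of_forall fun x => ?_
      simp only [Pi.zero_apply]
      rw [hpt]
      by_cases hx : x.1 = 0
      · simp [hx]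
      · exact (pos_aux hβ hcpos hx _).le
    · exact hFi.add hGi
  linarith

instance bernoulli_prob {t : ℝ} [Fact (0 ≤ t)] :
    IsProbabilityMeasure (bernoulliLaw (Real.exp (-t))) := by
  have ht : 0 ≤ t := Fact.out
  have h1 : Real.exp (-t) ≤ 1 := by rw [Real.exp_le_one_iff]; linarith
  refine ⟨?_⟩
  unfold bernoulliLaw
  simp only [Measure.add_apply, Measure.smul_apply, measure_univ, smul_eq_mul, mul_one]
  rw [← ENNReal.ofReal_add (Real.exp_pos _).le (by linarith)]
  simp

lemma integral_bernoulli {p : ℝ} (h0 : 0 ≤ p) (h1 : p ≤ 1) (f : Bool → ℝ) :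
    ∫ x, f x ∂(bernoulliLaw p) = p * f true + (1 - p) * f false := by
  unfold bernoulliLaw
  rw [integral_add_measure, integral_smul_measure, integral_smul_measure, integral_dirac,
    integral_dirac, ENNReal.toReal_ofReal h0, ENNReal.toReal_ofReal (by linarith)]
  · simp
  · exact Integrable.smul_measure (integrable_dirac (by simp)) ENNReal.ofReal_ne_top
  · exact Integrable.smul_measure (integrable_dirac (by simp)) ENNReal.ofReal_ne_top

theorem kappa_discrete {β t : ℝ} (hβ : 0 < β) [Fact (0 ≤ t)] :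
    0 < ∫ x : (ℝ × ℝ) × Bool, Real.tanh (β * x.1.1) *
      Real.tanh (β * (if x.2 then x.1.1 else x.1.2))
      ∂(((gaussianReal 0 1).prod (gaussianReal 0 1)).prod (bernoulliLaw (Real.exp (-t)))) := by
  have ht : 0 ≤ t := Fact.out
  set p := Real.exp (-t) with hp
  have hp0 : 0 < p := Real.exp_pos _
  have hp1 : p ≤ 1 := by rw [hp, Real.exp_le_one_iff]; linarith
  have hmeas : Measurable (fun x : (ℝ × ℝ) × Bool => if x.2 then x.1.1 else x.1.2) :=
    Measurable.ite (measurable_snd (measurableSet_singleton true))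
      (by fun_prop) (by fun_prop)
  rw [integral_prod _ (bounded_integrable _ (by fun_prop) hmeas β)]
  have h1 : ∀ x : ℝ × ℝ, ∫ y : Bool, Real.tanh (β * x.1) *
      Real.tanh (β * (if y then x.1 else x.2)) ∂(bernoulliLaw p)
      = p * (Real.tanh (β * x.1) * Real.tanh (β * x.1))
        + (1 - p) * (Real.tanh (β * x.1) * Real.tanh (β * x.2)) := by
    intro x
    rw [integral_bernoulli hp0.le hp1]
    simp
  simp only [h1]
  have hi1 : Integrable (fun x : ℝ × ℝ => Real.tanh (β * x.1) * Real.tanh (β * x.1))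
      ((gaussianReal 0 1).prod (gaussianReal 0 1)) :=
    bounded_integrable _ measurable_fst measurable_fst β
  have hi2 : Integrable (fun x : ℝ × ℝ => Real.tanh (β * x.1) * Real.tanh (β * x.2))
      ((gaussianReal 0 1).prod (gaussianReal 0 1)) :=
    bounded_integrable _ measurable_fst measurable_snd β
  rw [integral_add (hi1.const_mul _) (hi2.const_mul _), integral_const_mul, integral_const_mul]
  have h2 : ∫ x : ℝ × ℝ, Real.tanh (β * x.1) * Real.tanh (β * x.2)
      ∂((gaussianReal 0 1).prod (gaussianReal 0 1))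
      = (∫ x, Real.tanh (β * x) ∂(gaussianReal 0 1)) *
        (∫ x, Real.tanh (β * x) ∂(gaussianReal 0 1)) :=
    integral_prod_mul (fun x => Real.tanh (β * x)) (fun x => Real.tanh (β * x))
  have h3 : 0 < ∫ x : ℝ × ℝ, Real.tanh (β * x.1) * Real.tanh (β * x.1)
      ∂((gaussianReal 0 1).prod (gaussianReal 0 1)) := by
    rw [integral_pos_iff_support_of_nonneg (fun x => mul_self_nonneg _) hi1]
    have hsub : {x : ℝ × ℝ | x.1 = 0}ᶜ ⊆ Function.support
        (fun x : ℝ × ℝ => Real.tanh (β * x.1) * Real.tanh (β * x.1)) := by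
      intro x hx
      rw [Function.mem_support]
      have : Real.tanh (β * x.1) ≠ 0 := by
        rw [Real.tanh_eq_sinh_div_cosh]
        refine div_ne_zero ?_ (Real.cosh_pos _).ne'
        rw [Ne, Real.sinh_eq_zero]
        exact mul_ne_zero hβ.ne' hx
      exact mul_ne_zero this this
    refine lt_of_lt_of_le ?_ (measure_mono hsub)
    have h1 := prob_compl_eq_one_iff₀ (μ := (gaussianReal 0 1).prod (gaussianReal 0 1))
      (s := {x : ℝ × ℝ | x.1 = 0})
      (measurableSet_eq_fun measurable_fst measurable_const).nullMeasurableSet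
    rw [h1.2 null_fst]
    exact one_pos
  rw [h2]
  have h4 := mul_self_nonneg (∫ x, Real.tanh (β * x) ∂(gaussianReal 0 1))
  have h5 : 0 ≤ (1 - p) * ((∫ x, Real.tanh (β * x) ∂(gaussianReal 0 1)) *
        (∫ x, Real.tanh (β * x) ∂(gaussianReal 0 1))) := mul_nonneg (by linarith) h4
  have h6 := mul_pos hp0 h3
  linarith

/-- Site disorder chaos fails: there is a sequence of 3-uniform hypergraphs, of polynomial and of
exponential growth, such that for the odd function `ρ(x) = x` (so with Gaussian couplings), for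
each of the two perturbations, every `t > 0` and every `β ∈ (0, ∞)`, the quantity `E⟨R²⟩_t` stays
above a positive constant. -/
theorem result : ∃ G : (N : ℕ) → Finset (Finset (Fin N)),
    (∀ N, ∀ e ∈ G N, e.card = 3) ∧ PolynomialGrowth G ∧ ExponentialGrowth G ∧
    ∀ t β : ℝ, 0 < t → 0 < β →
      (∃ c : ℝ, 0 < c ∧ ∀ᶠ N : ℕ in atTop, c ≤ continuousChaos (G N) id β t) ∧
      (∃ c : ℝ, 0 < c ∧ ∀ᶠ N : ℕ in atTop, c ≤ discreteChaos (G N) id β t) := by
  refine ⟨G, uniform3, ⟨4, 1, by norm_num, by norm_num, ?_⟩, ⟨4, 2, by norm_num, by norm_num, ?_⟩,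
    ?_⟩
  · intro N v r hr
    have h := card_ball_le v r
    have h' : ((ball (G N) v r).card : ℝ) ≤ 4 := by exact_mod_cast h
    have hr' : (1 : ℝ) ≤ r := by exact_mod_cast hr
    rw [Real.rpow_one]
    linarith
  · intro N v r
    have h := card_ball_le v r
    have h' : ((ball (G N) v r).card : ℝ) ≤ 4 := by exact_mod_cast h
    have hr' : (1 : ℝ) ≤ 2 ^ r := one_le_pow₀ (by norm_num)
    linarith
  · intro t β ht hβ
    constructor
    · exact average_ge ((gaussianReal 0 1).prod (gaussianReal 0 1))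
        (a := fun x : ℝ × ℝ => id x.1)
        (b := fun x : ℝ × ℝ => id (Real.exp (-t) * x.1 + Real.sqrt (1 - Real.exp (-2 * t)) * x.2))
        (by fun_prop) (by fun_prop) β (kappa_continuous hβ)
    · have : Fact (0 ≤ t) := ⟨ht.le⟩
      have hmeas : Measurable (fun x : (ℝ × ℝ) × Bool => if x.2 then x.1.1 else x.1.2) :=
        Measurable.ite (measurable_snd (measurableSet_singleton true))
          (by fun_prop) (by fun_prop)
      exact average_ge
        (((gaussianReal 0 1).prod (gaussianReal 0 1)).prod (bernoulliLaw (Real.exp (-t))))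
        (a := fun x : (ℝ × ℝ) × Bool => id x.1.1)
        (b := fun x : (ℝ × ℝ) × Bool => id (if x.2 then x.1.1 else x.1.2))
        (by fun_prop) hmeas β (kappa_discrete hβ)

end Pool.Agent.Results.MP_f93cde_pr.NoSiteDisorderChaos
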